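import Pool.Agent.H596R2.ChainRed

/-!
# Chain minors of posets of bounded width and `∃∀`-DNF
-/

set_option autoImplicit false

namespace Pool.Agent.Y592.CW

open Pool.Agent.H596R2 Pool.Agent.H596R2.Chain

variable {m R T s : ℕ}

/-- Elements of `P`: variable and copy, side, and number of the element (`none` for the single
element of that side). -/
abbrev PE (m R : ℕ) : Type := (Fin m × Fin R) × Bool × Option Bool

/-- The strict order of `P`. -/
def ltP (x y : PE m R) : Prop :=
  x.1.1 < y.1.1 ∨ (x.1.1 = y.1.1 ∧ x.2.1 = y.2.1 ∧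
    (x.1.2 < y.1.2 ∨ (x.1.2 = y.1.2 ∧ up x.2 = false ∧ up y.2 = true)))

/-- Elements of `Q`: component (a term, or a free component), and element. -/
abbrev QE0 (m R T s : ℕ) : Type := (Fin T ⊕ Fin s) × PE m R

/-- The elements which are really present. -/
def valid (lit : Fin T → Bool → Fin m → Prop) (z : QE0 m R T s) : Prop :=
  match z.1 with
  | Sum.inl t => ¬ lit t (!z.2.2.1) z.2.1.1
  | Sum.inr j => j.1 = z.2.1.1.1 → z.2.2.2.isSome = true

/-- Whether the element is in the upper part of its gadget. -/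
def upQ (z : QE0 m R T s) : Bool := if special z.1 z.2.1.1 then z.2.2.1 else up z.2.2

/-- Whether two elements of the same gadget belong to the same part. -/
def mt (z z' : QE0 m R T s) : Prop :=
  if special z.1 z.2.1.1 then z.2.2.2 = z'.2.2.2 else z.2.2.1 = z'.2.2.1

/-- The strict order of `Q`. -/
def ltQ0 (z z' : QE0 m R T s) : Prop :=
  z.1 = z'.1 ∧ (z.2.1.1 < z'.2.1.1 ∨ (z.2.1.1 = z'.2.1.1 ∧
    ((z.2.1.2 < z'.2.1.2 ∧ (special z.1 z.2.1.1 ∨ z.2.2.1 = z'.2.2.1)) ∨
      (z.2.1.2 = z'.2.1.2 ∧ mt z z' ∧ upQ z = false ∧ upQ z' = true))))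

/-- The elements of `Q`. -/
abbrev QE (R s : ℕ) (lit : Fin T → Bool → Fin m → Prop) : Type :=
  {z : QE0 m R T s // valid lit z}

/-- The strict order of `Q`. -/
def ltQ {lit : Fin T → Bool → Fin m → Prop} (z z' : QE R s lit) : Prop := ltQ0 z.1 z'.1

/-- The element of a full chain for the gadget `g` in part `p`. -/
def ee (z : Fin m → Bool) (κ : Fin m × Fin R → Bool) (g : Fin m × Fin R) (p : Bool) : PE m R :=
  (g, z g.1, if p = z g.1 then some (κ g) else none)

@[simp] theorem ee_fst (z : Fin m → Bool) (κ : Fin m × Fin R → Bool) (g : Fin m × Fin R)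
    (p : Bool) : (ee z κ g p).1 = g := rfl

@[simp] theorem ee_side (z : Fin m → Bool) (κ : Fin m × Fin R → Bool) (g : Fin m × Fin R)
    (p : Bool) : (ee z κ g p).2.1 = z g.1 := rfl

@[simp] theorem up_ee (z : Fin m → Bool) (κ : Fin m × Fin R → Bool) (g : Fin m × Fin R)
    (p : Bool) : up (ee z κ g p).2 = p := by
  unfold ee up
  by_cases h : p = z g.1
  · simp [h]
  · simp only [h, if_false]
    cases p <;> cases hz : z g.1 <;> simp_all

/-- The rank of a gadget. -/
def rk (g : Fin m × Fin R) : ℕ := R * g.1.1 + g.2.1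

theorem rk_lt (g : Fin m × Fin R) : rk g < m * R := by
  unfold rk
  have h1 := g.1.2
  have h2 := g.2.2
  have h3 : R * (g.1.1 + 1) ≤ R * m := Nat.mul_le_mul_left R h1
  rw [Nat.mul_add, Nat.mul_comm R m] at h3
  omega

theorem rk_div (g : Fin m × Fin R) : rk g / R = g.1.1 := by
  unfold rk
  rw [Nat.mul_add_div (by have := g.2.2; omega), Nat.div_eq_of_lt g.2.2, Nat.add_zero]

theorem rk_mod (g : Fin m × Fin R) : rk g % R = g.2.1 := by
  unfold rk
  rw [Nat.mul_add_mod, Nat.mod_eq_of_lt g.2.2]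

theorem rk_mono {g h : Fin m × Fin R} (hgh : g.1 < h.1 ∨ (g.1 = h.1 ∧ g.2 < h.2)) :
    rk g < rk h := by
  unfold rk
  rcases hgh with h1 | ⟨h1, h2⟩
  · have h1 : g.1.1 < h.1.1 := h1
    have h2 := g.2.2
    have h3 : R * (g.1.1 + 1) ≤ R * h.1.1 := Nat.mul_le_mul_left R h1
    rw [Nat.mul_add] at h3
    omega
  · have h2 : g.2.1 < h.2.1 := h2
    rw [h1]
    omega

theorem rk_inj {g h : Fin m × Fin R} (hgh : rk g = rk h) : g = h := by
  apply Prod.ext
  · apply Fin.ext
    rw [← rk_div g, ← rk_div h, hgh]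
  · apply Fin.ext
    rw [← rk_mod g, ← rk_mod h, hgh]

theorem pos_aux (i : Fin (2 * (m * R))) : i.1 / 2 / R < m ∧ i.1 / 2 % R < R := by
  have h1 := i.2
  have hR : 0 < R := by
    refine Nat.pos_of_ne_zero ?_
    intro h
    have h3 : m * R = 0 := by rw [h, Nat.mul_zero]
    omega
  have h2 : i.1 / 2 < R * m := by
    rw [Nat.mul_comm R m]
    omega
  exact ⟨Nat.div_lt_of_lt_mul h2, Nat.mod_lt _ hR⟩

/-- The gadget of position `i`. -/
def pg (i : Fin (2 * (m * R))) : Fin m × Fin R :=
  (⟨i.1 / 2 / R, (pos_aux i).1⟩, ⟨i.1 / 2 % R, (pos_aux i).2⟩)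

/-- The part of position `i`. -/
def pp (i : Fin (2 * (m * R))) : Bool := decide (i.1 % 2 = 1)

theorem rk_pg (i : Fin (2 * (m * R))) : rk (pg i) = i.1 / 2 := by
  unfold rk pg
  exact Nat.div_add_mod _ _

/-- The full chain. -/
def full (z : Fin m → Bool) (κ : Fin m × Fin R → Bool) : List (PE m R) :=
  List.ofFn (fun i : Fin (2 * (m * R)) => ee z κ (pg i) (pp i))

theorem lex_of_rk {g h : Fin m × Fin R} (hgh : rk g < rk h) :
    g.1 < h.1 ∨ (g.1 = h.1 ∧ g.2 < h.2) := by
  rcases lt_trichotomy g.1 h.1 with h1 | h1 | h1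
  · exact Or.inl h1
  · rcases lt_trichotomy g.2 h.2 with h2 | h2 | h2
    · exact Or.inr ⟨h1, h2⟩
    · rw [Prod.ext h1 h2] at hgh
      exact absurd hgh (lt_irrefl _)
    · have := rk_mono (g := h) (h := g) (Or.inr ⟨h1.symm, h2⟩)
      omega
  · have := rk_mono (g := h) (h := g) (Or.inl h1)
    omega

theorem pos_cases {i j : Fin (2 * (m * R))} (h : i < j) :
    (pg i).1 < (pg j).1 ∨ ((pg i).1 = (pg j).1 ∧ ((pg i).2 < (pg j).2 ∨
      ((pg i).2 = (pg j).2 ∧ pp i = false ∧ pp j = true))) := by
  have h : i.1 < j.1 := h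
  by_cases h1 : i.1 / 2 < j.1 / 2
  · rw [← rk_pg, ← rk_pg] at h1
    rcases lex_of_rk h1 with h2 | ⟨h2, h3⟩
    · exact Or.inl h2
    · exact Or.inr ⟨h2, Or.inl h3⟩
  · have h2 : rk (pg i) = rk (pg j) := by
      rw [rk_pg, rk_pg]
      omega
    have h3 := rk_inj h2
    refine Or.inr ⟨by rw [h3], Or.inr ⟨by rw [h3], ?_, ?_⟩⟩
    · unfold pp; rw [decide_eq_false_iff_not]; omega
    · unfold pp; rw [decide_eq_true_iff]; omega

theorem full_pairwise (z : Fin m → Bool) (κ : Fin m × Fin R → Bool) :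
    (full z κ).Pairwise ltP := by
  unfold full
  rw [List.pairwise_ofFn]
  intro i j hij
  rcases pos_cases hij with h | ⟨h1, h2⟩
  · exact Or.inl h
  · refine Or.inr ⟨h1, ?_, ?_⟩
    · simp [h1]
    · rcases h2 with h2 | ⟨h2, h3, h4⟩
      · exact Or.inl h2
      · refine Or.inr ⟨h2, ?_, ?_⟩
        · simp [h3]
        · simp [h4]

/-- The position of a gadget and a part. -/
def psn (g : Fin m × Fin R) (p : Bool) : Fin (2 * (m * R)) :=
  ⟨2 * rk g + (if p = true then 1 else 0), by
    have := rk_lt g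
    split_ifs <;> omega⟩

theorem pg_psn (g : Fin m × Fin R) (p : Bool) : pg (psn g p) = g := by
  apply rk_inj
  rw [rk_pg]
  simp only [psn]
  split_ifs <;> omega

theorem pp_psn (g : Fin m × Fin R) (p : Bool) : pp (psn g p) = p := by
  unfold pp psn
  cases p
  · rw [decide_eq_false_iff_not]
    simp only [Bool.false_eq_true, if_false]
    omega
  · rw [decide_eq_true_iff]
    simp only [if_true]
    omega

theorem ltP_irrefl (x : PE m R) : ¬ ltP x x := by
  rintro (h | ⟨_, _, h | ⟨_, h1, h2⟩⟩)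
  · exact lt_irrefl _ h
  · exact lt_irrefl _ h
  · rw [h1] at h2; simp at h2

theorem ltP_trans {x y z : PE m R} (h : ltP x y) (h' : ltP y z) : ltP x z := by
  rcases h with h | ⟨h1, h2, h3⟩
  · rcases h' with h' | h'
    · exact Or.inl (lt_trans h h')
    · exact Or.inl (h'.1 ▸ h)
  · rcases h' with h' | ⟨h1', h2', h3'⟩
    · exact Or.inl (h1 ▸ h')
    · refine Or.inr ⟨h1.trans h1', h2.trans h2', ?_⟩
      rcases h3 with h3 | ⟨h3, h4, h5⟩
      · rcases h3' with h3' | ⟨h3', _, _⟩
        · exact Or.inl (lt_trans h3 h3')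
        · exact Or.inl (h3' ▸ h3)
      · rcases h3' with h3' | ⟨_, h6, _⟩
        · exact Or.inl (h3 ▸ h3')
        · rw [h5] at h6; simp at h6

theorem ltP_asymm {x y : PE m R} (h : ltP x y) (h' : ltP y x) : False :=
  ltP_irrefl _ (ltP_trans h h')

/-- Every chain of `P` is contained in a full chain. -/
theorem chain_sublist_full {l : List (PE m R)} (hl : l.Pairwise ltP) :
    ∃ (z : Fin m → Bool) (κ : Fin m × Fin R → Bool), l.Sublist (full z κ) := by
  classical
  have hcomp : ∀ x ∈ l, ∀ y ∈ l, x = y ∨ ltP x y ∨ ltP y x := by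
    intro x hx y hy
    obtain ⟨i, hi, rfl⟩ := List.getElem_of_mem hx
    obtain ⟨j, hj, rfl⟩ := List.getElem_of_mem hy
    rw [List.pairwise_iff_getElem] at hl
    rcases lt_trichotomy i j with h | h | h
    · exact Or.inr (Or.inl (hl i j hi hj h))
    · subst h; exact Or.inl rfl
    · exact Or.inr (Or.inr (hl j i hj hi h))
  have hside : ∀ x ∈ l, ∀ y ∈ l, x.1.1 = y.1.1 → x.2.1 = y.2.1 := by
    intro x hx y hy hxy
    rcases hcomp x hx y hy with h | (h | h) | (h | h)
    · rw [h]
    · exact absurd hxy (ne_of_lt h)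
    · exact h.2.1
    · exact absurd hxy.symm (ne_of_lt h)
    · exact h.2.1.symm
  have hup : ∀ x ∈ l, ∀ y ∈ l, x.1 = y.1 → up x.2 = up y.2 → x = y := by
    intro x hx y hy hxy hu
    have h1 : x.1.1 = y.1.1 := by rw [hxy]
    have h2 : x.1.2 = y.1.2 := by rw [hxy]
    rcases hcomp x hx y hy with h | (h | ⟨_, _, h | h⟩) | (h | ⟨_, _, h | h⟩)
    · exact h
    · exact absurd h1 (ne_of_lt h)
    · exact absurd h2 (ne_of_lt h)
    · rw [h.2.1, h.2.2] at hu; simp at hu
    · exact absurd h1.symm (ne_of_lt h)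
    · exact absurd h2.symm (ne_of_lt h)
    · rw [h.2.1, h.2.2] at hu; simp at hu
  let z : Fin m → Bool := fun v => if h : ∃ x ∈ l, x.1.1 = v then h.choose.2.1 else false
  let κ : Fin m × Fin R → Bool := fun g => if h : ∃ x ∈ l, x.1 = g ∧ x.2.2.isSome = true then
    (h.choose.2.2).getD false else false
  have hz : ∀ x ∈ l, z x.1.1 = x.2.1 := by
    intro x hx
    have h : ∃ y ∈ l, y.1.1 = x.1.1 := ⟨x, hx, rfl⟩
    simp only [z, dif_pos h]
    exact hside _ h.choose_spec.1 _ hx h.choose_spec.2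
  have hκ : ∀ x ∈ l, ∀ k, x.2.2 = some k → κ x.1 = k := by
    intro x hx k hk
    have h : ∃ y ∈ l, y.1 = x.1 ∧ y.2.2.isSome = true := ⟨x, hx, rfl, by rw [hk]; rfl⟩
    simp only [κ, dif_pos h]
    have h1 := h.choose_spec
    have h2 : h.choose = x := by
      apply hup _ h1.1 _ hx h1.2.1
      unfold up
      rw [hside _ h1.1 _ hx (by rw [h1.2.1]), h1.2.2, hk]
      rfl
    rw [h2, hk]
    rfl
  have hee : ∀ x ∈ l, x = ee z κ x.1 (up x.2) := by
    rintro ⟨g, σ, o⟩ hx
    have h1 : z g.1 = σ := hz _ hx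
    unfold ee up
    rw [h1]
    cases o with
    | none => cases σ <;> simp
    | some k =>
      have h2 : κ g = k := hκ _ hx k rfl
      rw [h2]
      cases σ <;> simp
  refine ⟨z, κ, ?_⟩
  have hnodup : l.Nodup := by
    unfold List.Nodup
    refine hl.imp ?_
    intro a b h heq
    rw [heq] at h
    exact ltP_irrefl _ h
  have hanti : Std.Antisymm (ltP (m := m) (R := R)) := ⟨fun a b h h' => (ltP_asymm h h').elim⟩
  have hsub : l ⊆ full z κ := by
    intro x hx
    unfold full
    rw [List.mem_ofFn]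
    refine ⟨psn x.1 (up x.2), ?_⟩
    rw [pg_psn, pp_psn]
    exact (hee x hx).symm
  exact List.sublist_of_subperm_of_pairwise (List.subperm_of_subset hnodup hsub) hl
    (full_pairwise z κ)

/-! ### From a valid choice of the existential variables to a witness -/

theorem CM_of_EA (lit : Fin T → Bool → Fin m → Prop)
    (h : EAabs s lit) : CM (ltP (m := m) (R := R)) (ltQ (R := R) (s := s) (lit := lit)) := by
  classical
  obtain ⟨Y, hY⟩ := h
  let f : QE R s lit → PE m R := fun z =>
    if special z.1.1 z.1.2.1.1 then (z.1.2.1, !Y z.1.2.1.1,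
      if z.1.2.2.1 = !Y z.1.2.1.1 then z.1.2.2.2 else none) else z.1.2
  have lift : ∀ (z : Fin m → Bool) (κ : Fin m × Fin R → Bool),
      ∃ L : List (QE R s lit), L.Pairwise ltQ ∧ L.map f = full z κ := by
    intro z κ
    by_cases hz : Agree s Y z
    · -- a true term serves the chain
      obtain ⟨t, ht⟩ := hY z hz
      have hval : ∀ g p, valid (s := s) lit (Sum.inl t, ee z κ g p) := by
        intro g p hl
        have := ht _ _ hl
        simp only [ee_fst, ee_side] at this
        cases hzv : z g.1 <;> simp [hzv] at this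
      refine ⟨List.ofFn (fun i : Fin (2 * (m * R)) =>
        ⟨(Sum.inl t, ee z κ (pg i) (pp i)), hval _ _⟩), ?_, ?_⟩
      · rw [List.pairwise_ofFn]
        intro i j hij
        refine ⟨rfl, ?_⟩
        rcases pos_cases hij with h | ⟨h1, h2 | ⟨h2, h3, h4⟩⟩
        · exact Or.inl h
        · exact Or.inr ⟨h1, Or.inl ⟨h2, Or.inr (by simp [h1])⟩⟩
        · refine Or.inr ⟨h1, Or.inr ⟨h2, ?_, ?_, ?_⟩⟩
          · simp [mt, special, h1]
          · simp [upQ, special, h3]
          · simp [upQ, special, h4]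
      · rw [List.map_ofFn]
        rfl
    · -- a free component serves the chain
      unfold Agree at hz
      push Not at hz
      obtain ⟨v₀, hv₀, hne⟩ := hz
      have hz0 : z v₀ = !Y v₀ := by
        cases h1 : z v₀ <;> cases h2 : Y v₀ <;> simp_all
      let j : Fin s := ⟨v₀.1, hv₀⟩
      let g : Fin m × Fin R → Bool → PE m R := fun v p =>
        if j.1 = v.1.1 then (v, p, some (κ v)) else ee z κ v p
      have hg1 : ∀ v p, (g v p).1 = v := by
        intro v p
        simp only [g]
        split_ifs <;> rfl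
      have hval : ∀ v p, valid (T := T) (s := s) lit (Sum.inr j, g v p) := by
        intro v p
        simp only [valid]
        rw [hg1]
        intro hj
        simp [g, hj]
      refine ⟨List.ofFn (fun i : Fin (2 * (m * R)) => ⟨(Sum.inr j, g (pg i) (pp i)), hval _ _⟩),
        ?_, ?_⟩
      · rw [List.pairwise_ofFn]
        intro i i' hij
        refine ⟨rfl, ?_⟩
        simp only [hg1]
        rcases pos_cases hij with h | ⟨h1, h2 | ⟨h2, h3, h4⟩⟩
        · exact Or.inl h
        · refine Or.inr ⟨h1, Or.inl ⟨h2, ?_⟩⟩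
          by_cases hj : j.1 = (pg i).1.1
          · exact Or.inl hj
          · right
            have hj' : ¬ j.1 = (pg i').1.1 := by rw [← h1]; exact hj
            simp only [g, if_neg hj, if_neg hj', ee_side, h1]
        · have h5 : pg i = pg i' := Prod.ext h1 h2
          refine Or.inr ⟨h1, Or.inr ⟨h2, ?_, ?_, ?_⟩⟩
          · simp only [mt, special, hg1, h5, g]
            split_ifs with hj
            · simp
            · simp
          · simp only [upQ, special, hg1, g, h3]
            split_ifs with hj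
            · rfl
            · simp
          · simp only [upQ, special, hg1, g, h4]
            split_ifs with hj
            · rfl
            · simp
      · rw [List.map_ofFn, full]
        congr 1
        funext i
        simp only [Function.comp, f, special, hg1]
        split_ifs with h1 h2
        · have hv : (pg i).1 = v₀ := Fin.ext h1.symm
          simp only [g, h1, if_true, ee, hv, hz0] at h2 ⊢
          simp [h2]
        · have hv : (pg i).1 = v₀ := Fin.ext h1.symm
          simp only [g, h1, if_true, ee, hv, hz0] at h2 ⊢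
          simp [h2]
        · simp [g, h1]
  refine ⟨f, fun l hl => ?_⟩
  obtain ⟨z, κ, hsub⟩ := chain_sublist_full hl
  obtain ⟨L, hL1, hL2⟩ := lift z κ
  rw [← hL2, List.sublist_map_iff] at hsub
  obtain ⟨l', hl', hl''⟩ := hsub
  exact ⟨l', hL1.sublist hl', hl''.symm⟩

/-! ### From a witness to a valid choice of the existential variables -/

/-- The level of an element of `Q`. -/
def lev (z : QE0 m R T s) : ℕ := 2 * rk z.2.1 + (if upQ z = true then 1 else 0)

theorem lev_lt {z z' : QE0 m R T s} (h : ltQ0 z z') : lev z < lev z' := by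
  unfold lev
  rcases h.2 with h1 | ⟨h1, ⟨h2, _⟩ | ⟨h2, _, h3, h4⟩⟩
  · have := rk_mono (g := z.2.1) (h := z'.2.1) (Or.inl h1)
    split_ifs <;> omega
  · have := rk_mono (g := z.2.1) (h := z'.2.1) (Or.inr ⟨h1, h2⟩)
    split_ifs <;> omega
  · have h5 : z.2.1 = z'.2.1 := Prod.ext h1 h2
    rw [h5, h3, h4]
    simp

theorem lev_bound (z : QE0 m R T s) : lev z < 2 * (m * R) := by
  unfold lev
  have := rk_lt z.2.1
  split_ifs <;> omega

/-- A chain of `Q` of full length: one component, and in each gadget a lower and an upper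
element. -/
theorem full_chain {lit : Fin T → Bool → Fin m → Prop} (f : QE R s lit → PE m R)
    (z : Fin m → Bool) (κ : Fin m × Fin R → Bool) (L : List (QE R s lit)) (hL : L.Pairwise ltQ)
    (hf : L.map f = full z κ) (hm : 0 < m) (hR : 0 < R) :
    ∃ c : Fin T ⊕ Fin s, ∀ g : Fin m × Fin R, ∃ lo hi : QE R s lit, lo.1.1 = c ∧ hi.1.1 = c ∧
      lo.1.2.1 = g ∧ hi.1.2.1 = g ∧ upQ lo.1 = false ∧ upQ hi.1 = true ∧ mt lo.1 hi.1 ∧
      f lo = ee z κ g false ∧ f hi = ee z κ g true := by
  have hlen : L.length = 2 * (m * R) := by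
    have := congrArg List.length hf
    simpa [full] using this
  rw [List.pairwise_iff_getElem] at hL
  let G : Fin (2 * (m * R)) → QE R s lit := fun i => L[i.1]'(by rw [hlen]; exact i.2)
  have hlt : ∀ i j : Fin (2 * (m * R)), i < j → ltQ (G i) (G j) := fun i j hij => hL _ _ _ _ hij
  have hfg : ∀ i : Fin (2 * (m * R)), f (G i) = ee z κ (pg i) (pp i) := by
    intro i
    have h1 : (L.map f)[i.1]? = some (f (G i)) := by
      rw [List.getElem?_map, List.getElem?_eq_getElem (by rw [hlen]; exact i.2)]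
      rfl
    rw [hf, full, List.getElem?_ofFn] at h1
    rw [dif_pos i.2] at h1
    exact (Option.some.inj h1).symm
  have hlev : ∀ i : Fin (2 * (m * R)), lev (G i).1 = i := by
    intro i
    exact strictMono_id (fun i => lev (G i).1) (fun i j hij => lev_lt (hlt i j hij))
      (fun i => lev_bound _) i
  have hcomp : ∀ i j : Fin (2 * (m * R)), i < j → (G i).1.1 = (G j).1.1 := fun i j hij =>
    (hlt i j hij).1
  have hmR : 0 < m * R := Nat.mul_pos hm hR
  have h0 : ∀ i : Fin (2 * (m * R)), (G i).1.1 = (G ⟨0, by omega⟩).1.1 := by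
    intro i
    by_cases hi : i = ⟨0, by omega⟩
    · rw [hi]
    · refine (hcomp ⟨0, by omega⟩ i ?_).symm
      rw [Fin.lt_def]
      have : i.1 ≠ 0 := fun h => hi (Fin.ext h)
      simp only
      omega
  refine ⟨(G ⟨0, by omega⟩).1.1, fun g => ?_⟩
  have hg := rk_lt g
  let a : Fin (2 * (m * R)) := psn g false
  let b : Fin (2 * (m * R)) := psn g true
  have ha' : a.1 = 2 * rk g := by simp [a, psn]
  have hb' : b.1 = 2 * rk g + 1 := by simp [b, psn]
  have ha := hlev a
  have hb := hlev b
  have hab := hlt a b (by rw [Fin.lt_def]; omega)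
  have ha1 : (G a).1.2.1 = g ∧ upQ (G a).1 = false := by
    unfold lev at ha
    cases hu : upQ (G a).1
    · rw [hu] at ha
      refine ⟨rk_inj ?_, rfl⟩
      simp only [Bool.false_eq_true, if_false] at ha
      omega
    · rw [hu] at ha
      simp only [if_true] at ha
      omega
  have hb1 : (G b).1.2.1 = g ∧ upQ (G b).1 = true := by
    unfold lev at hb
    cases hu : upQ (G b).1
    · rw [hu] at hb
      simp only [Bool.false_eq_true, if_false] at hb
      omega
    · rw [hu] at hb
      refine ⟨rk_inj ?_, rfl⟩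
      simp only [if_true] at hb
      omega
  refine ⟨G a, G b, h0 a, h0 b, ha1.1, hb1.1, ha1.2, hb1.2, ?_, ?_, ?_⟩
  · rcases hab.2 with h | ⟨_, ⟨h, _⟩ | ⟨_, h, _⟩⟩
    · rw [ha1.1, hb1.1] at h
      exact absurd h (lt_irrefl _)
    · rw [ha1.1, hb1.1] at h
      exact absurd h (lt_irrefl _)
    · exact h
  · rw [hfg, pg_psn, pp_psn]
  · rw [hfg, pg_psn, pp_psn]

theorem up_true {o : Option Bool} (h : up (true, o) = false) : o = none := by
  unfold up at h
  cases o <;> simp at h ⊢

theorem up_false {o : Option Bool} (h : up (false, o) = true) : o = none := by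
  unfold up at h
  cases o <;> simp at h ⊢

theorem EA_of_CM (hm : 0 < m) (hR : T + s < R) (hs : s ≤ m)
    (lit : Fin T → Bool → Fin m → Prop)
    (h : CM (ltP (m := m) (R := R)) (ltQ (R := R) (s := s) (lit := lit))) : EAabs s lit := by
  classical
  obtain ⟨f, hf⟩ := h
  -- the choice gadgets
  let gj : Fin s → Fin m × Fin R := fun j =>
    (⟨j.1, lt_of_lt_of_le j.2 hs⟩, ⟨T + j.1, by have := j.2; omega⟩)
  have hval : ∀ (j : Fin s) (p k : Bool), valid (m := m) (R := R) (T := T) lit
      (Sum.inr j, (gj j, p, some k)) := by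
    intro j p k _
    rfl
  let el : (j : Fin s) → Bool → Bool → QE R s lit := fun j p k =>
    ⟨(Sum.inr j, (gj j, p, some k)), hval j p k⟩
  let Srv : Fin s → Bool → Bool → Prop := fun j σ κ =>
    ∃ k : Bool, f (el j false k) = (gj j, σ, if false = σ then some κ else none) ∧
      f (el j true k) = (gj j, σ, if true = σ then some κ else none)
  have hchoice : ∀ j : Fin s, ∃ q : Bool × Bool, ¬ Srv j q.1 q.2 := by
    intro j
    by_contra hcon
    push Not at hcon
    choose K hK1 hK2 using hcon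
    have hinj : Function.Injective K := by
      rintro ⟨σ, κ⟩ ⟨σ', κ'⟩ hk
      have a1 := hK1 (σ, κ)
      have a2 := hK2 (σ, κ)
      have b1 := hK1 (σ', κ')
      have b2 := hK2 (σ', κ')
      rw [hk, b1] at a1
      rw [hk, b2] at a2
      simp only [Prod.mk.injEq, true_and] at a1 a2
      obtain ⟨c1, c2⟩ := a1
      obtain ⟨_, c3⟩ := a2
      subst c1
      cases σ' with
      | false => simpa using c2.symm
      | true => simpa using c3.symm
    have := Fintype.card_le_of_injective K hinj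
    simp at this
  choose yk hyk using hchoice
  let Y : Fin m → Bool := fun v => if h : v.1 < s then (yk ⟨v.1, h⟩).1 else false
  refine ⟨Y, fun z hz => ?_⟩
  -- the numbers
  let κ : Fin m × Fin R → Bool := fun g =>
    if ht : g.2.1 < T then
      (if hv : valid (R := R) (s := s) lit (Sum.inl ⟨g.2.1, ht⟩, (g, !z g.1, none)) then
        !((f ⟨(Sum.inl ⟨g.2.1, ht⟩, (g, !z g.1, none)), hv⟩).2.2).getD false else false)
    else if hj : g.2.1 - T < s then (yk ⟨g.2.1 - T, hj⟩).2 else false
  obtain ⟨L, hL, hLf⟩ := hf (full z κ) (full_pairwise z κ)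
  obtain ⟨c, hc⟩ := full_chain f z κ L hL hLf hm (by omega)
  cases c with
  | inr j =>
    exfalso
    obtain ⟨lo, hi, c1, c2, v1, v2, u1, u2, hmt, f1, f2⟩ := hc (gj j)
    obtain ⟨⟨cl, gl, σl, ol⟩, hlo⟩ := lo
    obtain ⟨⟨ch, gh, σh, oh⟩, hhi⟩ := hi
    simp only at c1 c2 v1 v2
    subst c1 c2 v1 v2
    have hsp : special (Sum.inr j : Fin T ⊕ Fin s) (gj j).1 := rfl
    simp only [upQ] at u1 u2
    rw [if_pos hsp] at u1 u2
    simp only [mt] at hmt
    rw [if_pos hsp] at hmt
    subst u1 u2 hmt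
    obtain ⟨k, rfl⟩ := Option.isSome_iff_exists.1 (hlo rfl)
    have hzj : z (gj j).1 = (yk j).1 := by
      have h1 := hz (gj j).1 j.2
      simp only [Y, gj] at h1
      rw [dif_pos j.2] at h1
      exact h1
    have hκj : κ (gj j) = (yk j).2 := by
      have h1 : ¬ (gj j).2.1 < T := by simp only [gj]; omega
      have h2 : (gj j).2.1 - T = j.1 := by simp only [gj]; omega
      simp only [κ]
      rw [dif_neg h1, dif_pos (by rw [h2]; exact j.2)]
      congr 2
      exact Fin.ext h2
    apply hyk j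
    refine ⟨k, ?_, ?_⟩
    · rw [← hzj, ← hκj]
      exact f1
    · rw [← hzj, ← hκj]
      exact f2
  | inl t =>
    refine ⟨t, fun b v hl => ?_⟩
    by_contra hb
    have htR : t.1 < R := by have := t.2; omega
    obtain ⟨lo, hi, c1, c2, v1, v2, u1, u2, hmt, f1, f2⟩ := hc (v, ⟨t.1, htR⟩)
    obtain ⟨⟨cl, gl, σl, ol⟩, hlo⟩ := lo
    obtain ⟨⟨ch, gh, σh, oh⟩, hhi⟩ := hi
    simp only at c1 c2 v1 v2
    subst c1 c2 v1 v2
    have hsp : ¬ special (Sum.inl t : Fin T ⊕ Fin s) v := fun h => h
    simp only [upQ] at u1 u2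
    rw [if_neg hsp] at u1 u2
    simp only [mt] at hmt
    rw [if_neg hsp] at hmt
    subst hmt
    have hv1 : ¬ lit t (!σl) v := hlo
    have hσb : σl = b := by
      by_contra hne
      have : b = !σl := by cases b <;> cases σl <;> simp_all
      rw [this] at hl
      exact hv1 hl
    have hzσ : z v = !σl := by
      rw [hσb]
      cases h1 : z v <;> cases b <;> simp_all
    have hσz : σl = !z v := by rw [hzσ, Bool.not_not]
    have hκ : ∀ (hv : valid (R := R) (s := s) lit
        (Sum.inl t, ((v, (⟨t.1, htR⟩ : Fin R)), !z v, none))),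
        κ (v, ⟨t.1, htR⟩) = !((f ⟨(Sum.inl t, ((v, (⟨t.1, htR⟩ : Fin R)), !z v, none)),
          hv⟩).2.2).getD false := by
      intro hv
      simp only [κ]
      rw [dif_pos t.2, dif_pos hv]
    cases hσ : σl with
    | true =>
      subst hσ
      have ho : ol = none := up_true u1
      subst ho
      have hz0 : z v = false := by rw [hzσ]; rfl
      have hlo' : valid (R := R) (s := s) lit
          (Sum.inl t, ((v, (⟨t.1, htR⟩ : Fin R)), !z v, none)) := by
        rw [hz0]
        exact hlo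
      have h1 := hκ hlo'
      have h2 : (f ⟨(Sum.inl t, ((v, (⟨t.1, htR⟩ : Fin R)), !z v, none)), hlo'⟩) =
          ee z κ (v, ⟨t.1, htR⟩) false := by
        rw [← f1]
        congr 2
        rw [hz0]
        rfl
      rw [h2] at h1
      simp [ee, hz0] at h1
    | false =>
      subst hσ
      have ho : oh = none := up_false u2
      subst ho
      have hz0 : z v = true := by rw [hzσ]; rfl
      have hhi' : valid (R := R) (s := s) lit
          (Sum.inl t, ((v, (⟨t.1, htR⟩ : Fin R)), !z v, none)) := by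
        rw [hz0]
        exact hhi
      have h1 := hκ hhi'
      have h2 : (f ⟨(Sum.inl t, ((v, (⟨t.1, htR⟩ : Fin R)), !z v, none)), hhi'⟩) =
          ee z κ (v, ⟨t.1, htR⟩) true := by
        rw [← f2]
        congr 2
        rw [hz0]
        rfl
      rw [h2] at h1
      simp [ee, hz0] at h1

end Pool.Agent.Y592.CW
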