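import Pool.Agent.Y592.CW.Red

/-!
# Width at most four and series-parallelity can be tested in polynomial time
-/

set_option autoImplicit false

namespace Pool.Agent.NPC.CW592

open Pool.Agent.H596R2 Pool.Agent.NPC.S2 Pool.Agent.Y592.CW Pool.Agent.NPC.H596

/-- Incomparability, on numbers. -/
def incB (M : List (List Bool)) (x y : ℕ) : Bool :=
  !decide (x = y) && (!ent M x y && !ent M y x)

/-- The test for width at most four. -/
def widthB (M : List (List Bool)) : Bool :=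
  allB M.length (fun a => allB M.length (fun b => allB M.length (fun c => allB M.length (fun d =>
    allB M.length (fun e => !(incB M a b && (incB M a c && (incB M a d && (incB M a e &&
      (incB M b c && (incB M b d && (incB M b e && (incB M c d && (incB M c e &&
        incB M d e))))))))))))))

/-- The test for being series-parallel. -/
def spB (M : List (List Bool)) : Bool :=
  allB M.length (fun a => allB M.length (fun b => allB M.length (fun c => allB M.length (fun d =>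
    !((sltB M a b && (sltB M c b && sltB M c d)) && (incB M a c && (incB M b d &&
      incB M a d)))))))

theorem incB_iff {M : List (List Bool)} {i j : Fin M.length} :
    incB M i j = true ↔ i ≠ j ∧ ¬ rel M i j ∧ ¬ rel M j i := by
  unfold incB rel
  simp only [Bool.and_eq_true, Bool.not_eq_true', decide_eq_false_iff_not, Bool.not_eq_true]
  exact and_congr (not_congr Fin.ext_iff.symm) Iff.rfl

theorem widthB_iff (M : List (List Bool)) : widthB M = true ↔ WidthLe 4 M := by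
  classical
  unfold widthB WidthLe
  simp only [allB_iff, Bool.not_eq_true']
  constructor
  · intro h S hS
    by_contra hlt
    push Not at hlt
    obtain ⟨U, hU, hcard⟩ := Finset.exists_subset_card_eq (show 5 ≤ S.card from hlt)
    have key : ∀ s t : Fin 5, s ≠ t → incB M (U.orderEmbOfFin hcard s) (U.orderEmbOfFin hcard t)
        = true := by
      intro s t hst
      rw [incB_iff]
      have h1 : U.orderEmbOfFin hcard s ≠ U.orderEmbOfFin hcard t :=
        fun h' => hst ((U.orderEmbOfFin hcard).injective h')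
      have m1 : U.orderEmbOfFin hcard s ∈ S := hU (U.orderEmbOfFin_mem hcard s)
      have m2 : U.orderEmbOfFin hcard t ∈ S := hU (U.orderEmbOfFin_mem hcard t)
      exact ⟨h1, hS m1 m2 h1, hS m2 m1 h1.symm⟩
    have h2 := h (U.orderEmbOfFin hcard 0) (U.orderEmbOfFin hcard 0).2
      (U.orderEmbOfFin hcard 1) (U.orderEmbOfFin hcard 1).2
      (U.orderEmbOfFin hcard 2) (U.orderEmbOfFin hcard 2).2
      (U.orderEmbOfFin hcard 3) (U.orderEmbOfFin hcard 3).2
      (U.orderEmbOfFin hcard 4) (U.orderEmbOfFin hcard 4).2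
    rw [key 0 1 (by decide), key 0 2 (by decide), key 0 3 (by decide), key 0 4 (by decide),
      key 1 2 (by decide), key 1 3 (by decide), key 1 4 (by decide), key 2 3 (by decide),
      key 2 4 (by decide), key 3 4 (by decide)] at h2
    simp at h2
  · intro h a ha b hb c hc d hd e he
    by_contra hne
    rw [Bool.not_eq_false] at hne
    simp only [Bool.and_eq_true] at hne
    obtain ⟨ab, ac, ad, ae, bc, bd, be, cd, ce, de⟩ := hne
    have ab := (incB_iff (i := ⟨a, ha⟩) (j := ⟨b, hb⟩)).1 ab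
    have ac := (incB_iff (i := ⟨a, ha⟩) (j := ⟨c, hc⟩)).1 ac
    have ad := (incB_iff (i := ⟨a, ha⟩) (j := ⟨d, hd⟩)).1 ad
    have ae := (incB_iff (i := ⟨a, ha⟩) (j := ⟨e, he⟩)).1 ae
    have bc := (incB_iff (i := ⟨b, hb⟩) (j := ⟨c, hc⟩)).1 bc
    have bd := (incB_iff (i := ⟨b, hb⟩) (j := ⟨d, hd⟩)).1 bd
    have be := (incB_iff (i := ⟨b, hb⟩) (j := ⟨e, he⟩)).1 be
    have cd := (incB_iff (i := ⟨c, hc⟩) (j := ⟨d, hd⟩)).1 cd
    have ce := (incB_iff (i := ⟨c, hc⟩) (j := ⟨e, he⟩)).1 ce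
    have de := (incB_iff (i := ⟨d, hd⟩) (j := ⟨e, he⟩)).1 de
    have h1 := h {⟨a, ha⟩, ⟨b, hb⟩, ⟨c, hc⟩, ⟨d, hd⟩, ⟨e, he⟩} (by
      intro x hx y hy hxy
      simp only [Finset.coe_insert, Finset.coe_singleton, Set.mem_insert_iff,
        Set.mem_singleton_iff] at hx hy
      rcases hx with rfl | rfl | rfl | rfl | rfl <;> rcases hy with rfl | rfl | rfl | rfl | rfl <;>
        first
        | exact absurd rfl hxy
        | exact ab.2.1
        | exact ab.2.2
        | exact ac.2.1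
        | exact ac.2.2
        | exact ad.2.1
        | exact ad.2.2
        | exact ae.2.1
        | exact ae.2.2
        | exact bc.2.1
        | exact bc.2.2
        | exact bd.2.1
        | exact bd.2.2
        | exact be.2.1
        | exact be.2.2
        | exact cd.2.1
        | exact cd.2.2
        | exact ce.2.1
        | exact ce.2.2
        | exact de.2.1
        | exact de.2.2)
    rw [Finset.card_insert_of_notMem, Finset.card_insert_of_notMem, Finset.card_insert_of_notMem,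
      Finset.card_insert_of_notMem, Finset.card_singleton] at h1
    · omega
    · simp only [Finset.mem_singleton]
      exact de.1
    · simp only [Finset.mem_insert, Finset.mem_singleton, not_or]
      exact ⟨cd.1, ce.1⟩
    · simp only [Finset.mem_insert, Finset.mem_singleton, not_or]
      exact ⟨bc.1, bd.1, be.1⟩
    · simp only [Finset.mem_insert, Finset.mem_singleton, not_or]
      exact ⟨ab.1, ac.1, ad.1, ae.1⟩

theorem incB_iff_slt {M : List (List Bool)} {i j : Fin M.length} :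
    incB M i j = true ↔ i ≠ j ∧ ¬ slt M i j ∧ ¬ slt M j i := by
  rw [incB_iff]
  unfold slt
  constructor
  · rintro ⟨h1, h2, h3⟩
    exact ⟨h1, fun h => h2 h.1, fun h => h3 h.1⟩
  · rintro ⟨h1, h2, h3⟩
    exact ⟨h1, fun h => h2 ⟨h, h1⟩, fun h => h3 ⟨h, h1.symm⟩⟩

theorem spB_iff (M : List (List Bool)) : spB M = true ↔ SeriesParallel M := by
  unfold spB SeriesParallel SPOrder
  simp only [allB_iff, Bool.not_eq_true']
  constructor
  · rintro h ⟨a, b, c, d, ⟨h1, h2, h3⟩, ⟨h4, h5, h6⟩, ⟨h7, h8⟩, ⟨h9, h10⟩, h11, h12⟩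
    have h13 := h a a.2 b b.2 c c.2 d d.2
    rw [sltB_iff.2 h1, sltB_iff.2 h2, sltB_iff.2 h3, incB_iff_slt.2 ⟨h4, h7, h8⟩,
      incB_iff_slt.2 ⟨h5, h9, h10⟩, incB_iff_slt.2 ⟨h6, h11, h12⟩] at h13
    simp at h13
  · intro h a ha b hb c hc d hd
    by_contra hne
    rw [Bool.not_eq_false] at hne
    simp only [Bool.and_eq_true] at hne
    obtain ⟨⟨ab, cb, cd⟩, ac, bd, ad⟩ := hne
    have ac := (incB_iff_slt (i := ⟨a, ha⟩) (j := ⟨c, hc⟩)).1 ac
    have bd := (incB_iff_slt (i := ⟨b, hb⟩) (j := ⟨d, hd⟩)).1 bd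
    have ad := (incB_iff_slt (i := ⟨a, ha⟩) (j := ⟨d, hd⟩)).1 ad
    exact h ⟨⟨a, ha⟩, ⟨b, hb⟩, ⟨c, hc⟩, ⟨d, hd⟩, ⟨sltB_iff.1 ab, sltB_iff.1 cb, sltB_iff.1 cd⟩,
      ⟨ac.1, bd.1, ad.1⟩, ac.2, bd.2, ad.2.1, ad.2.2⟩

section Comp

variable {α : Type} [TEnc α]

theorem poly_incB {M : α → List (List Bool)} {i j : α → ℕ} (hM : Poly M) (hi : Poly i)
    (hj : Poly j) : Poly (fun a => incB (M a) (i a) (j a)) :=
  Poly.and (Poly.not (Poly.decide_eq hi hj)) (Poly.and (Poly.not (poly_ent hM hi hj))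
    (Poly.not (poly_ent hM hj hi)))

theorem poly_widthB {M : α → List (List Bool)} (hM : Poly M) : Poly (fun a => widthB (M a)) := by
  have hM1 : Poly (fun x : α × ℕ => M x.1) := hM.comp (Poly.fst Poly.id)
  have hM2 : Poly (fun x : (α × ℕ) × ℕ => M x.1.1) := hM1.comp (Poly.fst Poly.id)
  have hM3 : Poly (fun x : ((α × ℕ) × ℕ) × ℕ => M x.1.1.1) := hM2.comp (Poly.fst Poly.id)
  have hM4 : Poly (fun x : (((α × ℕ) × ℕ) × ℕ) × ℕ => M x.1.1.1.1) :=
    hM3.comp (Poly.fst Poly.id)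
  have hM5 : Poly (fun x : ((((α × ℕ) × ℕ) × ℕ) × ℕ) × ℕ => M x.1.1.1.1.1) :=
    hM4.comp (Poly.fst Poly.id)
  refine poly_allB (UPoly.length hM) (poly_allB (p := fun (x : α × ℕ) b =>
    allB (M x.1).length (fun c => allB (M x.1).length (fun d =>
    allB (M x.1).length (fun e => !(incB (M x.1) x.2 b && (incB (M x.1) x.2 c &&
      (incB (M x.1) x.2 d && (incB (M x.1) x.2 e &&
      (incB (M x.1) b c && (incB (M x.1) b d && (incB (M x.1) b e && (incB (M x.1) c d &&
        (incB (M x.1) c e && incB (M x.1) d e))))))))))))) (UPoly.length hM1) ?_)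
  refine poly_allB (p := fun (x : (α × ℕ) × ℕ) c => allB (M x.1.1).length (fun d =>
    allB (M x.1.1).length (fun e => !(incB (M x.1.1) x.1.2 x.2 && (incB (M x.1.1) x.1.2 c &&
      (incB (M x.1.1) x.1.2 d && (incB (M x.1.1) x.1.2 e &&
      (incB (M x.1.1) x.2 c && (incB (M x.1.1) x.2 d && (incB (M x.1.1) x.2 e &&
        (incB (M x.1.1) c d && (incB (M x.1.1) c e && incB (M x.1.1) d e))))))))))))
    (UPoly.length hM2) ?_
  refine poly_allB (p := fun (x : ((α × ℕ) × ℕ) × ℕ) d =>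
    allB (M x.1.1.1).length (fun e => !(incB (M x.1.1.1) x.1.1.2 x.1.2 &&
      (incB (M x.1.1.1) x.1.1.2 x.2 &&
      (incB (M x.1.1.1) x.1.1.2 d && (incB (M x.1.1.1) x.1.1.2 e &&
      (incB (M x.1.1.1) x.1.2 x.2 && (incB (M x.1.1.1) x.1.2 d && (incB (M x.1.1.1) x.1.2 e &&
        (incB (M x.1.1.1) x.2 d && (incB (M x.1.1.1) x.2 e && incB (M x.1.1.1) d e)))))))))))
    (UPoly.length hM3) ?_
  refine poly_allB (p := fun (x : (((α × ℕ) × ℕ) × ℕ) × ℕ) e =>
    !(incB (M x.1.1.1.1) x.1.1.1.2 x.1.1.2 &&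
      (incB (M x.1.1.1.1) x.1.1.1.2 x.1.2 &&
      (incB (M x.1.1.1.1) x.1.1.1.2 x.2 && (incB (M x.1.1.1.1) x.1.1.1.2 e &&
      (incB (M x.1.1.1.1) x.1.1.2 x.1.2 && (incB (M x.1.1.1.1) x.1.1.2 x.2 &&
        (incB (M x.1.1.1.1) x.1.1.2 e && (incB (M x.1.1.1.1) x.1.2 x.2 &&
          (incB (M x.1.1.1.1) x.1.2 e && incB (M x.1.1.1.1) x.2 e))))))))))
    (UPoly.length hM4) ?_
  have a : Poly (fun x : ((((α × ℕ) × ℕ) × ℕ) × ℕ) × ℕ => x.1.1.1.1.2) :=
    Poly.snd (Poly.fst (Poly.fst (Poly.fst (Poly.fst Poly.id))))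
  have b : Poly (fun x : ((((α × ℕ) × ℕ) × ℕ) × ℕ) × ℕ => x.1.1.1.2) :=
    Poly.snd (Poly.fst (Poly.fst (Poly.fst Poly.id)))
  have c : Poly (fun x : ((((α × ℕ) × ℕ) × ℕ) × ℕ) × ℕ => x.1.1.2) :=
    Poly.snd (Poly.fst (Poly.fst Poly.id))
  have d : Poly (fun x : ((((α × ℕ) × ℕ) × ℕ) × ℕ) × ℕ => x.1.2) :=
    Poly.snd (Poly.fst Poly.id)
  have e : Poly (fun x : ((((α × ℕ) × ℕ) × ℕ) × ℕ) × ℕ => x.2) := Poly.snd Poly.id
  exact Poly.not (Poly.and (poly_incB hM5 a b) (Poly.and (poly_incB hM5 a c)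
    (Poly.and (poly_incB hM5 a d) (Poly.and (poly_incB hM5 a e) (Poly.and (poly_incB hM5 b c)
    (Poly.and (poly_incB hM5 b d) (Poly.and (poly_incB hM5 b e) (Poly.and (poly_incB hM5 c d)
    (Poly.and (poly_incB hM5 c e) (poly_incB hM5 d e))))))))))

theorem poly_spB {M : α → List (List Bool)} (hM : Poly M) : Poly (fun a => spB (M a)) := by
  have hM1 : Poly (fun x : α × ℕ => M x.1) := hM.comp (Poly.fst Poly.id)
  have hM2 : Poly (fun x : (α × ℕ) × ℕ => M x.1.1) := hM1.comp (Poly.fst Poly.id)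
  have hM3 : Poly (fun x : ((α × ℕ) × ℕ) × ℕ => M x.1.1.1) := hM2.comp (Poly.fst Poly.id)
  have hM4 : Poly (fun x : (((α × ℕ) × ℕ) × ℕ) × ℕ => M x.1.1.1.1) :=
    hM3.comp (Poly.fst Poly.id)
  refine poly_allB (UPoly.length hM) (poly_allB (p := fun (x : α × ℕ) b =>
    allB (M x.1).length (fun c => allB (M x.1).length (fun d =>
    !((sltB (M x.1) x.2 b && (sltB (M x.1) c b && sltB (M x.1) c d)) &&
      (incB (M x.1) x.2 c && (incB (M x.1) b d && incB (M x.1) x.2 d))))))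
    (UPoly.length hM1) ?_)
  refine poly_allB (p := fun (x : (α × ℕ) × ℕ) c => allB (M x.1.1).length (fun d =>
    !((sltB (M x.1.1) x.1.2 x.2 && (sltB (M x.1.1) c x.2 && sltB (M x.1.1) c d)) &&
      (incB (M x.1.1) x.1.2 c && (incB (M x.1.1) x.2 d && incB (M x.1.1) x.1.2 d)))))
    (UPoly.length hM2) ?_
  refine poly_allB (p := fun (x : ((α × ℕ) × ℕ) × ℕ) d =>
    !((sltB (M x.1.1.1) x.1.1.2 x.1.2 && (sltB (M x.1.1.1) x.2 x.1.2 &&
      sltB (M x.1.1.1) x.2 d)) && (incB (M x.1.1.1) x.1.1.2 x.2 &&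
      (incB (M x.1.1.1) x.1.2 d && incB (M x.1.1.1) x.1.1.2 d))))
    (UPoly.length hM3) ?_
  have a : Poly (fun x : (((α × ℕ) × ℕ) × ℕ) × ℕ => x.1.1.1.2) :=
    Poly.snd (Poly.fst (Poly.fst (Poly.fst Poly.id)))
  have b : Poly (fun x : (((α × ℕ) × ℕ) × ℕ) × ℕ => x.1.1.2) :=
    Poly.snd (Poly.fst (Poly.fst Poly.id))
  have c : Poly (fun x : (((α × ℕ) × ℕ) × ℕ) × ℕ => x.1.2) :=
    Poly.snd (Poly.fst Poly.id)
  have d : Poly (fun x : (((α × ℕ) × ℕ) × ℕ) × ℕ => x.2) := Poly.snd Poly.id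
  exact Poly.not (Poly.and (Poly.and (poly_sltB hM4 a b) (Poly.and (poly_sltB hM4 c b)
    (poly_sltB hM4 c d))) (Poly.and (poly_incB hM4 a c) (Poly.and (poly_incB hM4 b d)
    (poly_incB hM4 a d))))

end Comp

/-- The restricted problem is in `Σ₂ᵖ`. -/
theorem inSigma2P_narrow : InSigma2P ChainMinorNarrow := by
  refine inSigma2P_of (R := fun p : (List (List Bool) × List (List Bool)) × List Bool × List Bool =>
    cmB p && (widthB p.1.1 && (spB p.1.1 && spB p.1.2)))
    (Poly.and poly_cmB (Poly.and (poly_widthB (Poly.fst (Poly.fst Poly.id)))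
      (Poly.and (poly_spB (Poly.fst (Poly.fst Poly.id)))
        (poly_spB (Poly.snd (Poly.fst Poly.id)))))) (Polynomial.X ^ 2) fun I => ?_
  unfold ChainMinorNarrow
  rw [chainMinor_iff, ← widthB_iff, ← spB_iff, ← spB_iff]
  simp only [Bool.and_eq_true]
  constructor
  · rintro ⟨⟨u, hu, h⟩, h1, h2, h3⟩
    exact ⟨u, hu, fun v hv => ⟨h v hv, h1, h2, h3⟩⟩
  · rintro ⟨u, hu, h⟩
    refine ⟨⟨u, hu, fun v hv => (h v hv).1⟩, ?_⟩
    exact (h (List.replicate _ false) (List.length_replicate)).2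

end Pool.Agent.NPC.CW592
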