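import Pool.Agent.Y592.CW.Width
import Pool.Agent.H596R2.ChainMem

/-!
# The reduction to CHAIN MINOR with a first poset of bounded width
-/

set_option autoImplicit false

namespace Pool.Agent.NPC.CW592

open Pool.Agent.H596R2 Pool.Agent.NPC.S2 Pool.Agent.Y592.CW
open Pool.Agent.H596R2.Chain (up special CM CM_congr EAabs matrix_strict)
open Pool.Agent.NPC.H596


/-- CHAIN MINOR restricted to series-parallel posets `P`, `Q` with `P` of width at most four. -/
def ChainMinorNarrow (I : List (List Bool) × List (List Bool)) : Prop :=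
  ChainMinor I ∧ WidthLe 4 I.1 ∧ SeriesParallel I.1 ∧ SeriesParallel I.2

/-- Elements of the constructed poset `P`. -/
abbrev EP : Type := (ℕ × ℕ) × Bool × Option Bool

/-- Elements of the constructed poset `Q`. -/
abbrev EQ : Type := (Bool × ℕ) × EP

/-- The strict order of `P`. -/
def ltEP (x y : EP) : Prop :=
  x.1.1 < y.1.1 ∨ (x.1.1 = y.1.1 ∧ x.2.1 = y.2.1 ∧
    (x.1.2 < y.1.2 ∨ (x.1.2 = y.1.2 ∧ up x.2 = false ∧ up y.2 = true)))

instance : DecidableRel ltEP := fun x y => by unfold ltEP; infer_instance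

/-- The upper part of a gadget of `Q`. -/
def upEQ (z : EQ) : Bool := if z.1 = (true, z.2.1.1) then z.2.2.1 else up z.2.2

/-- The strict order of `Q`. -/
def ltEQ (z z' : EQ) : Prop :=
  z.1 = z'.1 ∧ (z.2.1.1 < z'.2.1.1 ∨ (z.2.1.1 = z'.2.1.1 ∧
    ((z.2.1.2 < z'.2.1.2 ∧ (z.1 = (true, z.2.1.1) ∨ z.2.2.1 = z'.2.2.1)) ∨
      (z.2.1.2 = z'.2.1.2 ∧ ((z.1 = (true, z.2.1.1) ∧ z.2.2.2 = z'.2.2.2) ∨
        (z.1 ≠ (true, z.2.1.1) ∧ z.2.2.1 = z'.2.2.1)) ∧ upEQ z = false ∧ upEQ z' = true))))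

instance : DecidableRel ltEQ := fun x y => by unfold ltEQ; infer_instance

/-- The number of copies. -/
def cR (I : EAInst) : ℕ := I.2.2.length + (I.1.length + 1)

/-- The elements of `P`. -/
def elsP (I : EAInst) : List EP :=
  nub ((List.range (cm I)).flatMap (fun v => (List.range (cR I)).flatMap (fun r =>
    [((v, r), false, none), ((v, r), true, none), ((v, r), false, some false),
      ((v, r), false, some true), ((v, r), true, some false), ((v, r), true, some true)])))

/-- The elements of `Q` which are present. -/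
def validE (I : EAInst) (z : EQ) : Bool :=
  if z.1.1 = true then (!decide (z.1.2 = z.2.1.1) || z.2.2.2.isSome)
  else !decide ((!z.2.2.1, z.2.1.1) ∈ I.2.2.getD z.1.2 [])

/-- The elements of `Q`. -/
def elsQ (I : EAInst) : List EQ :=
  nub (((comps I).flatMap (fun c => (elsP I).map (fun x => (c, x)))).filter (validE I))

/-- The constructed instance of CHAIN MINOR. -/
def bwRed (I : EAInst) : List (List Bool) × List (List Bool) :=
  (matrixOf (elsP I) (fun x y => decide (x = y ∨ ltEP x y)),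
    matrixOf (elsQ I) (fun x y => decide (x = y ∨ ltEQ x y)))

section Correct

variable (I : EAInst)

/-- From abstract elements of `P` to concrete ones. -/
def gP {m R : ℕ} (x : PE m R) : EP := ((x.1.1.1, x.1.2.1), x.2.1, x.2.2)

theorem gP_injective {m R : ℕ} : Function.Injective (gP (m := m) (R := R)) := by
  rintro ⟨⟨v, r⟩, σ, o⟩ ⟨⟨v', r'⟩, σ', o'⟩ h
  simp only [gP, Prod.mk.injEq] at h
  obtain ⟨⟨h1, h0⟩, h2, h3⟩ := h
  rw [Fin.ext h1, Fin.ext h0, h2, h3]

theorem mem_elsP (x : EP) : x ∈ elsP I ↔ ∃ b : PE (cm I) (cR I), gP b = x := by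
  unfold elsP
  rw [mem_nub, List.mem_flatMap]
  constructor
  · rintro ⟨v, hv, h⟩
    rw [List.mem_flatMap] at h
    obtain ⟨r, hr, h⟩ := h
    have hv := List.mem_range.1 hv
    have hr := List.mem_range.1 hr
    refine ⟨((⟨v, hv⟩, ⟨r, hr⟩), x.2.1, x.2.2), ?_⟩
    simp only [List.mem_cons, List.not_mem_nil, or_false] at h
    rcases h with rfl | rfl | rfl | rfl | rfl | rfl <;> rfl
  · rintro ⟨⟨⟨v, r⟩, σ, o⟩, rfl⟩
    refine ⟨v, List.mem_range.2 v.2, ?_⟩
    rw [List.mem_flatMap]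
    refine ⟨r, List.mem_range.2 r.2, ?_⟩
    cases σ <;> rcases o with _ | (_ | _) <;> simp [gP]

theorem ltP_iff {m R : ℕ} (x y : PE m R) : ltP x y ↔ ltEP (gP x) (gP y) := by
  unfold ltP ltEP
  rw [Fin.lt_def, Fin.ext_iff, Fin.lt_def, Fin.ext_iff]
  rfl

/-- From abstract elements of `Q` to concrete ones. -/
def gQ (z : QE (cR I) I.1.length (litI I)) : EQ := (gC z.1.1, gP z.1.2)

theorem gQ_injective : Function.Injective (gQ I) := by
  intro z z' h
  simp only [gQ, Prod.mk.injEq] at h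
  exact Subtype.ext (Prod.ext (gC_injective h.1) (gP_injective h.2))

theorem special_iff {T s m R : ℕ} (c : Fin T ⊕ Fin s) (x : PE m R) :
    special c x.1.1 ↔ gC c = (true, (gP x).1.1) := by
  cases c <;> simp [special, gC, gP]

theorem valid_iff (z : QE0 (cm I) (cR I) I.2.2.length I.1.length) :
    valid (litI I) z ↔ validE I (gC z.1, gP z.2) = true := by
  obtain ⟨c, ⟨v, r⟩, σ, o⟩ := z
  cases c with
  | inl t =>
    have e1 : validE I (gC (Sum.inl t : Fin I.2.2.length ⊕ Fin I.1.length),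
        gP ((v, r), σ, o)) = true ↔ ¬ ((!σ, v.1) ∈ I.2.2.getD t.1 []) := by
      unfold validE
      simp [gC, gP]
    rw [e1, List.getD_eq_getElem?_getD, List.getElem?_eq_getElem t.2]
    rfl
  | inr j =>
    have e1 : validE I (gC (Sum.inr j : Fin I.2.2.length ⊕ Fin I.1.length),
        gP ((v, r), σ, o)) = true ↔ (¬ (j.1 = v.1) ∨ o.isSome = true) := by
      unfold validE
      simp [gC, gP]
    rw [e1]
    unfold valid
    simp only
    tauto

theorem mem_elsQ (x : EQ) : x ∈ elsQ I ↔ ∃ b, gQ I b = x := by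
  unfold elsQ
  rw [mem_nub, List.mem_filter, List.mem_flatMap]
  constructor
  · rintro ⟨⟨c, hc, h⟩, hv⟩
    obtain ⟨c, rfl⟩ := (mem_comps I c).1 hc
    rw [List.mem_map] at h
    obtain ⟨y, hy, rfl⟩ := h
    obtain ⟨y, rfl⟩ := (mem_elsP I y).1 hy
    exact ⟨⟨(c, y), (valid_iff I (c, y)).2 hv⟩, rfl⟩
  · rintro ⟨⟨⟨c, y⟩, hv⟩, rfl⟩
    refine ⟨⟨gC c, (mem_comps I _).2 ⟨c, rfl⟩, ?_⟩, (valid_iff I (c, y)).1 hv⟩
    rw [List.mem_map]
    exact ⟨gP y, (mem_elsP I _).2 ⟨y, rfl⟩, rfl⟩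

theorem upQ_iff (z : QE (cR I) I.1.length (litI I)) : upQ z.1 = upEQ (gQ I z) := by
  unfold upQ upEQ gQ
  by_cases h : special z.1.1 z.1.2.1.1
  · rw [if_pos h, if_pos ((special_iff _ _).1 h)]
    rfl
  · rw [if_neg h, if_neg (fun h' => h ((special_iff _ _).2 h'))]
    rfl

theorem ltQ_iff (z z' : QE (cR I) I.1.length (litI I)) : ltQ z z' ↔ ltEQ (gQ I z) (gQ I z') := by
  unfold ltQ ltQ0 ltEQ
  rw [← upQ_iff, ← upQ_iff]
  have h1 : z.1.1 = z'.1.1 ↔ (gQ I z).1 = (gQ I z').1 := gC_injective.eq_iff.symm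
  have h2 : z.1.2.1.1 < z'.1.2.1.1 ↔ (gQ I z).2.1.1 < (gQ I z').2.1.1 := Iff.rfl
  have h3 : z.1.2.1.1 = z'.1.2.1.1 ↔ (gQ I z).2.1.1 = (gQ I z').2.1.1 := Fin.ext_iff
  have h2' : z.1.2.1.2 < z'.1.2.1.2 ↔ (gQ I z).2.1.2 < (gQ I z').2.1.2 := Iff.rfl
  have h3' : z.1.2.1.2 = z'.1.2.1.2 ↔ (gQ I z).2.1.2 = (gQ I z').2.1.2 := Fin.ext_iff
  have h5 : special z.1.1 z.1.2.1.1 ↔ (gQ I z).1 = (true, (gQ I z).2.1.1) := special_iff _ _
  have h6 : z.1.2.2.1 = z'.1.2.2.1 ↔ (gQ I z).2.2.1 = (gQ I z').2.2.1 := Iff.rfl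
  have h4 : Y592.CW.mt z.1 z'.1 ↔
      ((gQ I z).1 = (true, (gQ I z).2.1.1) ∧ (gQ I z).2.2.2 = (gQ I z').2.2.2) ∨
      ((gQ I z).1 ≠ (true, (gQ I z).2.1.1) ∧ (gQ I z).2.2.1 = (gQ I z').2.2.1) := by
    unfold Y592.CW.mt
    by_cases h : special z.1.1 z.1.2.1.1
    · have h' := h5.1 h
      rw [if_pos h]
      constructor
      · intro h5; exact Or.inl ⟨h', h5⟩
      · rintro (h5 | h5)
        · exact h5.2
        · exact absurd h' h5.1
    · have h' : ¬ (gQ I z).1 = (true, (gQ I z).2.1.1) := fun h' => h (h5.2 h')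
      rw [if_neg h]
      constructor
      · intro h5; exact Or.inr ⟨h', h5⟩
      · rintro (h5 | h5)
        · exact absurd h5.1 h'
        · exact h5.2
  rw [h1, h2, h3, h2', h3', h5, h6, h4]

theorem bwRed_correct (hpr : EAPr I) : EA I ↔ ChainMinorNarrow (bwRed I) := by
  have hm : 0 < cm I := by
    have := hpr.1
    unfold cm
    omega
  obtain ⟨p1, e1, he1⟩ := matrix_strict (lt := ltEP) (s := ltP) (nub_nodup _ : (elsP I).Nodup)
    gP gP_injective (mem_elsP I) ltP_iff ltP_irrefl (fun a b c => ltP_trans)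
  obtain ⟨p2, e2, he2⟩ := matrix_strict (lt := ltEQ) (s := ltQ) (nub_nodup _ : (elsQ I).Nodup)
    (gQ I) (gQ_injective I) (mem_elsQ I) (ltQ_iff I) (fun a => ltQ0_irrefl a.1)
    (fun a b c => ltQ0_trans)
  have hCM : CM (slt (bwRed I).1) (slt (bwRed I).2) ↔
      CM (ltP (m := cm I) (R := cR I)) (ltQ (R := cR I) (s := I.1.length) (lit := litI I)) :=
    CM_congr e1 e2 he1 he2
  rw [EAabs_iff I hpr]
  constructor
  · intro h
    exact ⟨⟨p1, p2, hCM.2 (CM_of_EA _ h)⟩, widthLe_of e1 he1, SPOrder.of_equiv e1 he1 sp_P,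
      SPOrder.of_equiv e2 he2 sp_Q⟩
  · rintro ⟨⟨_, _, h⟩, _⟩
    exact EA_of_CM hm (by unfold cR; omega) (by unfold cm; omega) _ (hCM.1 h)

end Correct

/-! ### The reduction is computable -/

section Comp

variable {α : Type} [TEnc α]

theorem poly_up {x : α → Bool × Option Bool} (hx : Poly x) : Poly (fun a => up (x a)) :=
  (Poly.not (Poly.xor (Poly.fst hx) (Poly.isSome (Poly.snd hx)))).congr fun a => by
    unfold up
    cases (x a).1 <;> cases (x a).2 <;> rfl

theorem poly_ltEP {x y : α → EP} (hx : Poly x) (hy : Poly y) :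
    Poly (fun a => decide (ltEP (x a) (y a))) := by
  refine poly_dec (Poly.or (Poly.decide_lt (Poly.fst (Poly.fst hx)) (Poly.fst (Poly.fst hy)))
    (Poly.and (Poly.decide_eq (Poly.fst (Poly.fst hx)) (Poly.fst (Poly.fst hy)))
    (Poly.and (Poly.decide_eq (Poly.fst (Poly.snd hx)) (Poly.fst (Poly.snd hy)))
    (Poly.or (Poly.decide_lt (Poly.snd (Poly.fst hx)) (Poly.snd (Poly.fst hy)))
    (Poly.and (Poly.decide_eq (Poly.snd (Poly.fst hx)) (Poly.snd (Poly.fst hy)))
    (Poly.and (Poly.not (poly_up (Poly.snd hx))) (poly_up (Poly.snd hy)))))))) fun a => ?_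
  simp [ltEP]

theorem poly_upEQ {x : α → EQ} (hx : Poly x) : Poly (fun a => upEQ (x a)) := by
  refine Poly.ite (p := fun a => (x a).1 = (true, (x a).2.1.1))
    (poly_dec (Poly.decide_eq (Poly.fst hx) (Poly.pair (Poly.const true)
      (Poly.fst (Poly.fst (Poly.snd hx))))) fun a => decide_eq_true_iff)
    (Poly.fst (Poly.snd (Poly.snd hx))) (poly_up (Poly.snd (Poly.snd hx)))

theorem poly_ltEQ {x y : α → EQ} (hx : Poly x) (hy : Poly y) :
    Poly (fun a => decide (ltEQ (x a) (y a))) := by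
  have e : Poly (fun a => decide ((x a).1 = (true, (x a).2.1.1))) :=
    Poly.decide_eq (Poly.fst hx) (Poly.pair (Poly.const true) (Poly.fst (Poly.fst (Poly.snd hx))))
  have v : ∀ {x : α → EQ}, Poly x → Poly (fun a => (x a).2.1.1) := fun hx =>
    Poly.fst (Poly.fst (Poly.snd hx))
  have r : ∀ {x : α → EQ}, Poly x → Poly (fun a => (x a).2.1.2) := fun hx =>
    Poly.snd (Poly.fst (Poly.snd hx))
  have sd : Poly (fun a => decide ((x a).2.2.1 = (y a).2.2.1)) :=
    Poly.decide_eq (Poly.fst (Poly.snd (Poly.snd hx))) (Poly.fst (Poly.snd (Poly.snd hy)))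
  have num : Poly (fun a => decide ((x a).2.2.2 = (y a).2.2.2)) :=
    Poly.decide_eq (Poly.snd (Poly.snd (Poly.snd hx))) (Poly.snd (Poly.snd (Poly.snd hy)))
  refine poly_dec (Poly.and (Poly.decide_eq (Poly.fst hx) (Poly.fst hy))
    (Poly.or (Poly.decide_lt (v hx) (v hy))
    (Poly.and (Poly.decide_eq (v hx) (v hy))
    (Poly.or (Poly.and (Poly.decide_lt (r hx) (r hy)) (Poly.or e sd))
    (Poly.and (Poly.decide_eq (r hx) (r hy))
    (Poly.and (Poly.or (Poly.and e num) (Poly.and (Poly.not e) sd))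
    (Poly.and (Poly.not (poly_upEQ hx)) (poly_upEQ hy)))))))) fun a => ?_
  simp [ltEQ]

theorem upoly_cR {I : α → EAInst} (h : Poly I) : UPoly (fun a => cR (I a)) :=
  UPoly.add (UPoly.length (Poly.snd (Poly.snd h))) (UPoly.add (UPoly.length (Poly.fst h))
    (UPoly.const 1))

theorem poly_elsP {I : α → EAInst} (h : Poly I) : Poly (fun a => elsP (I a)) := by
  refine Poly_nub (Poly.flatMap (F := fun a v => (List.range (cR (I a))).flatMap (fun r =>
    [(((v, r), false, none) : EP), ((v, r), true, none), ((v, r), false, some false),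
      ((v, r), false, some true), ((v, r), true, some false), ((v, r), true, some true)]))
    (upoly_cm h).range ?_)
  refine Poly.flatMap (F := fun (p : α × ℕ) r =>
    [(((p.2, r), false, none) : EP), ((p.2, r), true, none), ((p.2, r), false, some false),
      ((p.2, r), false, some true), ((p.2, r), true, some false), ((p.2, r), true, some true)])
    ((upoly_cR h).range.comp (Poly.fst Poly.id)) ?_
  have v : Poly (fun x : (α × ℕ) × ℕ => x.1.2) := Poly.snd (Poly.fst Poly.id)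
  have r : Poly (fun x : (α × ℕ) × ℕ => x.2) := Poly.snd Poly.id
  have el : ∀ q : Bool × Option Bool, Poly (fun x : (α × ℕ) × ℕ => (((x.1.2, x.2), q) : EP)) :=
    fun q => Poly.pair (Poly.pair v r) (Poly.const q)
  exact Poly.cons (el (false, none)) (Poly.cons (el (true, none))
    (Poly.cons (el (false, some false)) (Poly.cons (el (false, some true))
    (Poly.cons (el (true, some false)) (Poly.cons (el (true, some true)) (Poly.const []))))))

theorem poly_validE {I : α → EAInst} {z : α → EQ} (h : Poly I) (hz : Poly z) :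
    Poly (fun a => validE (I a) (z a)) := by
  have hm : Poly (fun a => decide ((!(z a).2.2.1, (z a).2.1.1) ∈ (I a).2.2.getD (z a).1.2 [])) :=
    poly_dec (Poly.decide_mem (Poly.pair (Poly.not (Poly.fst (Poly.snd (Poly.snd hz))))
      (Poly.fst (Poly.fst (Poly.snd hz)))) (Poly.getD (Poly.snd (Poly.snd h))
        (Poly.snd (Poly.fst hz)) (Poly.const []))) fun a => by simp
  refine Poly.ite (p := fun a => (z a).1.1 = true) (poly_dec (Poly.fst (Poly.fst hz))
    fun a => Iff.rfl) (Poly.or (Poly.not (Poly.decide_eq (Poly.snd (Poly.fst hz))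
      (Poly.fst (Poly.fst (Poly.snd hz))))) (Poly.isSome (Poly.snd (Poly.snd (Poly.snd hz)))))
    (Poly.not hm)

theorem poly_elsQ {I : α → EAInst} (h : Poly I) : Poly (fun a => elsQ (I a)) := by
  refine Poly_nub (Poly.filter (p := fun a z => validE (I a) z)
    (Poly.flatMap (F := fun a c => (elsP (I a)).map (fun x => ((c, x) : EQ))) (poly_comps h)
      (Poly.map (F := fun (p : α × (Bool × ℕ)) x => ((p.2, x) : EQ))
        ((poly_elsP h).comp (Poly.fst Poly.id))
        (Poly.pair (Poly.snd (Poly.fst Poly.id)) (Poly.snd Poly.id))))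
    (poly_validE (h.comp (Poly.fst Poly.id)) (Poly.snd Poly.id)))

theorem poly_bwRed : Poly bwRed := by
  refine Poly.pair (poly_matrixOf (r := fun _ x y => decide (x = y ∨ ltEP x y))
    (poly_elsP Poly.id) ?_) (poly_matrixOf (r := fun _ x y => decide (x = y ∨ ltEQ x y))
    (poly_elsQ Poly.id) ?_)
  · have x : Poly (fun p : (EAInst × EP) × EP => p.1.2) := Poly.snd (Poly.fst Poly.id)
    have y : Poly (fun p : (EAInst × EP) × EP => p.2) := Poly.snd Poly.id
    refine poly_dec (Poly.or (Poly.decide_eq x y) (poly_ltEP x y)) fun a => ?_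
    simp
  · have x : Poly (fun p : (EAInst × EQ) × EQ => p.1.2) := Poly.snd (Poly.fst Poly.id)
    have y : Poly (fun p : (EAInst × EQ) × EQ => p.2) := Poly.snd Poly.id
    refine poly_dec (Poly.or (Poly.decide_eq x y) (poly_ltEQ x y)) fun a => ?_
    simp

end Comp

/-- CHAIN MINOR is `Σ₂ᵖ`-hard for series-parallel posets, the first one of width at most four. -/
theorem hardS2_narrow : HardS2 (fun _ => True) ChainMinorNarrow :=
  hardS2_EA.trans poly_bwRed (fun _ _ => trivial) (fun I hI => bwRed_correct I hI)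

end Pool.Agent.NPC.CW592
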