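import Pool.Agent.Y592.CW.Core

/-!
# The posets of the reduction are series-parallel, and the first one has width at most four
-/

set_option autoImplicit false

namespace Pool.Agent.Y592.CW

open Pool.Agent.H596R2 Pool.Agent.H596R2.Chain

/-- The poset given by the matrix `M` has width at most `w`: every antichain has at most `w`
elements. -/
def WidthLe (w : ℕ) (M : List (List Bool)) : Prop :=
  ∀ S : Finset (Fin M.length), IsAntichain (rel M) (S : Set (Fin M.length)) → S.card ≤ w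

/-- The strict order `r` is series-parallel: there are no four elements `a, b, c, d` with
`a < b`, `c < b`, `c < d` and no other relation between them. -/
def SPOrder {α : Type} (r : α → α → Prop) : Prop :=
  ¬ ∃ a b c d, (r a b ∧ r c b ∧ r c d) ∧ (a ≠ c ∧ b ≠ d ∧ a ≠ d) ∧
    (¬ r a c ∧ ¬ r c a) ∧ (¬ r b d ∧ ¬ r d b) ∧ ¬ r a d ∧ ¬ r d a

/-- The poset given by the matrix `M` is series-parallel (has no induced `N`). -/
def SeriesParallel (M : List (List Bool)) : Prop := SPOrder (slt M)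

variable {m R T s : ℕ}

theorem inc_P {x y : PE m R} (h1 : ¬ ltP x y) (h2 : ¬ ltP y x) :
    x.1.1 = y.1.1 ∧ (x.2.1 = y.2.1 → x.1.2 = y.1.2 ∧ up x.2 = up y.2) := by
  unfold ltP at h1 h2
  push Not at h1 h2
  have hv : x.1.1 = y.1.1 := le_antisymm h2.1 h1.1
  refine ⟨hv, fun hs => ?_⟩
  have h3 := h1.2 hv hs
  have h4 := h2.2 hv.symm hs.symm
  have hr : x.1.2 = y.1.2 := le_antisymm h4.1 h3.1
  refine ⟨hr, ?_⟩
  have h5 := h3.2 hr
  have h6 := h4.2 hr.symm
  cases hx : up x.2 <;> cases hy : up y.2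
  · rfl
  · exact absurd hy (h5 hx)
  · exact absurd hx (h6 hy)
  · rfl

theorem sp_P : SPOrder (ltP (m := m) (R := R)) := by
  rintro ⟨a, b, c, d, ⟨hab, hcb, hcd⟩, _, ⟨h1, h2⟩, ⟨h3, h4⟩, h5, h6⟩
  obtain ⟨v1, e1⟩ := inc_P h1 h2
  obtain ⟨v2, e2⟩ := inc_P h5 h6
  obtain ⟨v3, _⟩ := inc_P h3 h4
  have sab : a.2.1 = b.2.1 := by
    rcases hab with h | h
    · rw [v2, v3] at h; exact absurd h (lt_irrefl _)
    · exact h.2.1
  have scb : c.2.1 = b.2.1 := by
    rcases hcb with h | h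
    · rw [← v1, v2, v3] at h; exact absurd h (lt_irrefl _)
    · exact h.2.1
  rcases hcd with h | ⟨_, scd, h⟩
  · rw [← v1, v2] at h; exact absurd h (lt_irrefl _)
  · obtain ⟨r1, u1⟩ := e1 (sab.trans scb.symm)
    obtain ⟨r2, u2⟩ := e2 ((sab.trans scb.symm).trans scd)
    rcases h with h | ⟨_, h7, h8⟩
    · rw [← r1, r2] at h; exact absurd h (lt_irrefl _)
    · rw [← u1, u2, h8] at h7
      simp at h7

theorem width_P (S : Finset (PE m R)) (hS : ∀ x ∈ S, ∀ y ∈ S, x ≠ y → ¬ ltP x y) :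
    S.card ≤ 4 := by
  classical
  have h : Set.InjOn (fun x : PE m R => ((x.2.1, x.2.2.getD false) : Bool × Bool)) S := by
    intro x hx y hy hxy
    by_contra hne
    simp only [Prod.mk.injEq] at hxy
    obtain ⟨hs, hk⟩ := hxy
    obtain ⟨hv, e⟩ := inc_P (hS x hx y hy hne) (hS y hy x hx (Ne.symm hne))
    obtain ⟨hr, hu⟩ := e hs
    apply hne
    obtain ⟨⟨v, r⟩, σ, o⟩ := x
    obtain ⟨⟨v', r'⟩, σ', o'⟩ := y
    simp only at hs hv hr hk
    subst hs hv hr
    unfold up at hu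
    cases o <;> cases o' <;> simp_all
  have h2 := Finset.card_le_card_of_injOn _ (fun x _ => Finset.mem_univ _) h
  simpa using h2

theorem inc_Q {x y : QE0 m R T s} (hc : x.1 = y.1) (h1 : ¬ ltQ0 x y) (h2 : ¬ ltQ0 y x) :
    x.2.1.1 = y.2.1.1 ∧ (special x.1 x.2.1.1 → x.2.1.2 = y.2.1.2) ∧
      (¬ special x.1 x.2.1.1 → x.2.2.1 = y.2.2.1 → x.2.1.2 = y.2.1.2 ∧ up x.2.2 = up y.2.2) := by
  unfold ltQ0 at h1 h2
  have hv : x.2.1.1 = y.2.1.1 := by
    rcases lt_trichotomy x.2.1.1 y.2.1.1 with h | h | h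
    · exact absurd ⟨hc, Or.inl h⟩ h1
    · exact h
    · exact absurd ⟨hc.symm, Or.inl h⟩ h2
  refine ⟨hv, fun hsp => ?_, fun hsp hs => ?_⟩
  · rcases lt_trichotomy x.2.1.2 y.2.1.2 with h | h | h
    · exact absurd ⟨hc, Or.inr ⟨hv, Or.inl ⟨h, Or.inl hsp⟩⟩⟩ h1
    · exact h
    · refine absurd ⟨hc.symm, Or.inr ⟨hv.symm, Or.inl ⟨h, Or.inl ?_⟩⟩⟩ h2
      rw [← hc, ← hv]
      exact hsp
  · have hr : x.2.1.2 = y.2.1.2 := by
      rcases lt_trichotomy x.2.1.2 y.2.1.2 with h | h | h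
      · exact absurd ⟨hc, Or.inr ⟨hv, Or.inl ⟨h, Or.inr hs⟩⟩⟩ h1
      · exact h
      · exact absurd ⟨hc.symm, Or.inr ⟨hv.symm, Or.inl ⟨h, Or.inr hs.symm⟩⟩⟩ h2
    refine ⟨hr, ?_⟩
    have hsp' : ¬ special y.1 y.2.1.1 := by rw [← hc, ← hv]; exact hsp
    have e1 : upQ x = up x.2.2 := if_neg hsp
    have e2 : upQ y = up y.2.2 := if_neg hsp'
    have m1 : mt x y := by unfold mt; rw [if_neg hsp]; exact hs
    have m2 : mt y x := by unfold mt; rw [if_neg hsp']; exact hs.symm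
    cases hx : up x.2.2 <;> cases hy : up y.2.2
    · rfl
    · exact absurd ⟨hc, Or.inr ⟨hv, Or.inr ⟨hr, m1, e1.trans hx, e2.trans hy⟩⟩⟩ h1
    · exact absurd ⟨hc.symm, Or.inr ⟨hv.symm, Or.inr ⟨hr.symm, m2, e2.trans hy,
        e1.trans hx⟩⟩⟩ h2
    · rfl

theorem sp_Q {lit : Fin T → Bool → Fin m → Prop} :
    SPOrder (ltQ (R := R) (s := s) (lit := lit)) := by
  rintro ⟨⟨a, ha⟩, ⟨b, hb⟩, ⟨c, hc⟩, ⟨d, hd⟩, ⟨hab, hcb, hcd⟩, ⟨hne, _, _⟩, ⟨h1, h2⟩, ⟨h3, h4⟩,
    h5, h6⟩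
  simp only [ltQ] at hab hcb hcd h1 h2 h3 h4 h5 h6
  have cab := hab.1
  have ccb := hcb.1
  have ccd := hcd.1
  have cac : a.1 = c.1 := cab.trans ccb.symm
  have cad : a.1 = d.1 := cac.trans ccd
  have cbd : b.1 = d.1 := cab.symm.trans cad
  obtain ⟨v1, s1, e1⟩ := inc_Q cac h1 h2
  obtain ⟨v2, s2, e2⟩ := inc_Q cad h5 h6
  obtain ⟨v3, s3, _⟩ := inc_Q cbd h3 h4
  have vab : a.2.1.1 = b.2.1.1 := v2.trans v3.symm
  have vcb : c.2.1.1 = b.2.1.1 := v1.symm.trans vab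
  have vcd : c.2.1.1 = d.2.1.1 := v1.symm.trans v2
  by_cases hsp : special a.1 a.2.1.1
  · have hspb : special b.1 b.2.1.1 := by rw [← cab, ← vab]; exact hsp
    have hspc : special c.1 c.2.1.1 := by rw [← cac, ← v1]; exact hsp
    have r1 := s1 hsp
    have r2 := s2 hsp
    have r3 := s3 hspb
    rcases hab.2 with h | ⟨_, ⟨h, _⟩ | ⟨_, m1, u1, _⟩⟩
    · rw [vab] at h; exact absurd h (lt_irrefl _)
    · rw [r2, ← r3] at h; exact absurd h (lt_irrefl _)
    · rcases hcb.2 with h | ⟨_, ⟨h, _⟩ | ⟨_, m2, u2, _⟩⟩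
      · rw [vcb] at h; exact absurd h (lt_irrefl _)
      · rw [← r1, r2, ← r3] at h; exact absurd h (lt_irrefl _)
      · apply hne
        apply Subtype.ext
        unfold mt at m1 m2
        rw [if_pos hsp] at m1
        rw [if_pos hspc] at m2
        unfold upQ at u1 u2
        rw [if_pos hsp] at u1
        rw [if_pos hspc] at u2
        exact Prod.ext cac (Prod.ext (Prod.ext v1 r1) (Prod.ext (u1.trans u2.symm)
          (m1.trans m2.symm)))
  · have hspc : ¬ special c.1 c.2.1.1 := by rw [← cac, ← v1]; exact hsp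
    have sab : a.2.2.1 = b.2.2.1 := by
      rcases hab.2 with h | ⟨_, ⟨_, h | h⟩ | ⟨_, h, _⟩⟩
      · rw [vab] at h; exact absurd h (lt_irrefl _)
      · exact absurd h hsp
      · exact h
      · unfold mt at h
        rwa [if_neg hsp] at h
    have scb : c.2.2.1 = b.2.2.1 := by
      rcases hcb.2 with h | ⟨_, ⟨_, h | h⟩ | ⟨_, h, _⟩⟩
      · rw [vcb] at h; exact absurd h (lt_irrefl _)
      · exact absurd h hspc
      · exact h
      · unfold mt at h
        rwa [if_neg hspc] at h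
    obtain ⟨r1, u1⟩ := e1 hsp (sab.trans scb.symm)
    rcases hcd.2 with h | ⟨_, ⟨h, h' | h'⟩ | ⟨_, h', h7, h8⟩⟩
    · rw [vcd] at h; exact absurd h (lt_irrefl _)
    · exact absurd h' hspc
    · obtain ⟨r2, _⟩ := e2 hsp ((sab.trans scb.symm).trans h')
      rw [← r1, r2] at h
      exact absurd h (lt_irrefl _)
    · unfold mt at h'
      rw [if_neg hspc] at h'
      obtain ⟨_, u2⟩ := e2 hsp ((sab.trans scb.symm).trans h')
      have hspd : ¬ special d.1 d.2.1.1 := by rw [← cad, ← v2]; exact hsp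
      unfold upQ at h7 h8
      rw [if_neg hspc] at h7
      rw [if_neg hspd] at h8
      rw [← u1, u2, h8] at h7
      simp at h7

theorem ltQ0_irrefl (z : QE0 m R T s) : ¬ ltQ0 z z := by
  rintro ⟨_, h | ⟨_, ⟨h, _⟩ | ⟨_, _, h1, h2⟩⟩⟩
  · exact lt_irrefl _ h
  · exact lt_irrefl _ h
  · rw [h1] at h2; simp at h2

theorem ltQ0_trans {x y z : QE0 m R T s} (h : ltQ0 x y) (h' : ltQ0 y z) : ltQ0 x z := by
  obtain ⟨c1, h⟩ := h
  obtain ⟨c2, h'⟩ := h'
  refine ⟨c1.trans c2, ?_⟩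
  rcases h with h | ⟨v1, h⟩
  · rcases h' with h' | ⟨v2, _⟩
    · exact Or.inl (lt_trans h h')
    · exact Or.inl (v2 ▸ h)
  · rcases h' with h' | ⟨v2, h'⟩
    · exact Or.inl (v1 ▸ h')
    · refine Or.inr ⟨v1.trans v2, ?_⟩
      have hsp : special x.1 x.2.1.1 ↔ special y.1 y.2.1.1 := by rw [c1, v1]
      rcases h with ⟨r1, a1⟩ | ⟨r1, m1, u1, w1⟩
      · rcases h' with ⟨r2, a2⟩ | ⟨r2, m2, _, _⟩
        · refine Or.inl ⟨lt_trans r1 r2, ?_⟩
          rcases a1 with a1 | a1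
          · exact Or.inl a1
          · rcases a2 with a2 | a2
            · exact Or.inl (hsp.2 a2)
            · exact Or.inr (a1.trans a2)
        · refine Or.inl ⟨r2 ▸ r1, ?_⟩
          rcases a1 with a1 | a1
          · exact Or.inl a1
          · by_cases hs : special y.1 y.2.1.1
            · exact Or.inl (hsp.2 hs)
            · unfold mt at m2
              rw [if_neg hs] at m2
              exact Or.inr (a1.trans m2)
      · rcases h' with ⟨r2, a2⟩ | ⟨_, _, u2, _⟩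
        · refine Or.inl ⟨r1 ▸ r2, ?_⟩
          by_cases hs : special x.1 x.2.1.1
          · exact Or.inl hs
          · right
            unfold mt at m1
            rw [if_neg hs] at m1
            rcases a2 with a2 | a2
            · exact absurd (hsp.2 a2) hs
            · exact m1.trans a2
        · rw [w1] at u2; simp at u2

/-! ### Transfer to matrices -/

theorem SPOrder.of_equiv {α β : Type} {r : α → α → Prop} {t : β → β → Prop} (e : α ≃ β)
    (he : ∀ a b, r a b ↔ t (e a) (e b)) (h : SPOrder t) : SPOrder r := by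
  rintro ⟨a, b, c, d, ⟨h1, h2, h3⟩, ⟨h4, h5, h6⟩, ⟨h7, h8⟩, ⟨h9, h10⟩, h11, h12⟩
  apply h
  refine ⟨e a, e b, e c, e d, ⟨(he _ _).1 h1, (he _ _).1 h2, (he _ _).1 h3⟩,
    ⟨fun h => h4 (e.injective h), fun h => h5 (e.injective h), fun h => h6 (e.injective h)⟩,
    ⟨fun h => h7 ((he _ _).2 h), fun h => h8 ((he _ _).2 h)⟩,
    ⟨fun h => h9 ((he _ _).2 h), fun h => h10 ((he _ _).2 h)⟩,
    fun h => h11 ((he _ _).2 h), fun h => h12 ((he _ _).2 h)⟩

theorem widthLe_of {M : List (List Bool)} (e : Fin M.length ≃ PE m R)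
    (he : ∀ i j, slt M i j ↔ ltP (e i) (e j)) : WidthLe 4 M := by
  classical
  intro S hS
  rw [← Finset.card_map e.toEmbedding]
  apply width_P
  intro x hx y hy hxy hlt
  rw [Finset.mem_map] at hx hy
  obtain ⟨i, hi, rfl⟩ := hx
  obtain ⟨j, hj, rfl⟩ := hy
  have hij : i ≠ j := fun h => hxy (by rw [h])
  have h1 : slt M i j := (he i j).2 hlt
  exact hS hi hj hij h1.1

end Pool.Agent.Y592.CW
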